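import Pool.Agent.MP_9e8696_an.H91.LocMain
import Pool.Agent.MP_9e8696_an.H99.Spec

/-!
The abstract local estimate in the form of the interface `RowAbs`.
-/

namespace Pool.Agent.MP_9e8696_an.H91

open Finset

lemma ev_tE {Ω : Type} [Fintype Ω] (ν y : Ω → ℝ) (lam s : ℝ) (F : Ω → ℝ) :
    ev ν (fun x => lam * y x) s F = H99.tE ν y (s * lam) F := by
  rw [ev_eq]
  unfold zf H99.tE
  congr 1
  · exact Finset.sum_congr rfl fun x _ => by rw [mul_assoc s]; ring
  · exact Finset.sum_congr rfl fun x _ => by rw [mul_assoc s]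

lemma scal_end {e A l : ℝ} (he : 0 < e) (he2 : e ≤ 1 / 26) (hl : -(1 / 4) ≤ l) (h1 : 1 + l ≤ A)
    (h2 : A ≤ 2) : min (l / 4) (2 * l) ≤ (1 - e) * Real.log A - 6 * e * (A - 1) ^ 2 := by
  have hA : 0 < A := by linarith
  have h3 := Real.one_sub_inv_le_log_of_pos hA
  have e1 : 1 - A⁻¹ = (A - 1) / A := by field_simp
  rw [e1] at h3
  rcases le_total 1 A with h | h
  · refine (min_le_left _ _).trans ?_
    have h4 : (A - 1) / 2 ≤ (A - 1) / A :=
      div_le_div_of_nonneg_left (by linarith) hA h2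
    have h5 : (1 - e) * ((A - 1) / 2) ≤ (1 - e) * Real.log A :=
      mul_le_mul_of_nonneg_left (h4.trans h3) (by linarith)
    have h6 : (A - 1) ^ 2 ≤ A - 1 := by nlinarith
    have h7 : e * (A - 1) ^ 2 ≤ e * (A - 1) := mul_le_mul_of_nonneg_left h6 he.le
    have h8 : e * (A - 1) ≤ 1 / 26 * (A - 1) := mul_le_mul_of_nonneg_right he2 (by linarith)
    nlinarith
  · refine (min_le_right _ _).trans ?_
    have h4 : 4 / 3 * (A - 1) ≤ (A - 1) / A := by
      rw [le_div_iff₀ hA]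
      nlinarith
    have h5 : Real.log A ≤ 0 := Real.log_nonpos hA.le h
    have h6 : (A - 1) ^ 2 ≤ 1 - A := by nlinarith
    have h7 : e * (A - 1) ^ 2 ≤ e * (1 - A) := mul_le_mul_of_nonneg_left h6 he.le
    have h8 : e * (1 - A) ≤ 1 / 26 * (1 - A) := mul_le_mul_of_nonneg_right he2 (by linarith)
    nlinarith [mul_nonneg he.le (neg_nonneg.2 h5)]

theorem rowAbs : H99.RowAbs := by
  intro M hM
  have hM0 : 0 < M := by linarith
  have hM3 : 1 ≤ M ^ 3 := one_le_pow₀ hM
  have he0 : 1 / (18432 * M ^ 3) ≤ 1 / 26 :=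
    one_div_le_one_div_of_le (by norm_num) (by linarith)
  refine ⟨576 * (16 * M), 1 / (18432 * M ^ 3), by positivity, by positivity, by linarith, ?_⟩
  intro Ω _ _ ν y f g κ N l e hν hκ hκ1 hN hl he hee H hA
  have he26 : e ≤ 1 / 26 := hee.trans he0
  have h1e : 0 < 1 - e := by linarith
  set lam := 1 / (1 - e) with hlamd
  have hlam : lam * (1 - e) = 1 := by rw [hlamd]; field_simp
  have hl0 : 0 < lam := by positivity
  have hω : ∀ x, 0 ≤ ν x := fun x => (hν x).le
  have hz : 0 < zf ν (fun x => lam * y x) 0 :=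
    Finset.sum_pos (fun x _ => mul_pos (hν x) (Real.exp_pos _)) Finset.univ_nonempty
  have H' : ∀ s : ℝ, 0 ≤ s → s ≤ 1 → _ := fun s h0 h1 =>
    H (s * lam) (by positivity) (by nlinarith)
  simp only [← ev_tE] at H'
  have hA' : 1 + l ≤ ev ν (fun x => lam * y x) 0 (fun x => f x ^ 2) := by
    rw [ev_tE, zero_mul]; exact hA
  have hfg : ∀ x, g x + (f x - g x) = f x := fun x => by ring
  obtain ⟨a1, a2, a3, a4, a5, a6, a7, a8, a9⟩ := H' 0 le_rfl zero_le_one
  have hMκ : 0 ≤ M * κ := by positivity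
  have hMκ2 : 0 ≤ M * κ ^ 2 := by positivity
  have key := loc_abs (ω := ν) (g := fun x => lam * y x) (y := y) (lam := lam) g
    (fun x => f x - g x) (κ := κ) (e := e) (M := 16 * M) (N := N) (c0 := 1 / M)
    hω hz (fun _ => rfl) he (by linarith) hlam hκ hκ1 ?_ (by linarith) hN ?_
    (fun t h0 h1 => (H' t h0 h1).2.2.2.2.2.1) ?_ ?_ ?_ ?_ ?_ ?_ ?_ (by linarith) (by linarith)
  · simp only [hfg] at key
    have e1 : ∀ F, H99.tE ν y lam F = ev ν (fun x => lam * y x) 1 F := fun F => by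
      rw [ev_tE, one_mul]
    rw [e1, e1, e1]
    refine le_trans (Real.exp_le_exp.2 ?_) key
    have := scal_end he he26 hl hA' a1
    linarith
  · intro h0 x
    rw [h0, mul_zero] at a4
    have hp : ∀ x, 0 < pt ν (fun x => lam * y x) 0 x := fun x =>
      div_pos (mul_pos (hν x) (Real.exp_pos _)) hz
    have h1 : pt ν (fun x => lam * y x) 0 x * (f x - g x) ^ 2 ≤ 0 :=
      (Finset.single_le_sum (f := fun x => pt ν (fun x => lam * y x) 0 x * (f x - g x) ^ 2)
        (fun x _ => mul_nonneg (hp x).le (sq_nonneg _)) (Finset.mem_univ x)).trans a4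
    have h2 : (f x - g x) ^ 2 ≤ 0 := by
      by_contra hc
      exact absurd h1 (not_le.2 (mul_pos (hp x) (not_le.1 hc)))
    exact pow_eq_zero_iff (two_ne_zero) |>.1 (le_antisymm h2 (sq_nonneg _))
  · rw [le_div_iff₀ (by positivity)] at hee
    rw [le_div_iff₀ hM0]
    nlinarith
  · simp only [hfg]
    have := ev_lin2 (ω := ν) (g := fun x => lam * y x) 0 1 κ (fun x => g x ^ 2) (fun _ => 1)
    rw [ev_const 0 hz] at this
    simp only [one_mul, mul_one] at this
    rw [this]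
    nlinarith
  · intro t h0 h1
    have hzt := zf_pos hω t 0 hz
    refine (ev_mono hω t (G := fun x => 2 * g x ^ 4 + 2 * κ ^ 2) fun x => by
      nlinarith [sq_nonneg (g x ^ 2 - κ)]).trans ?_
    rw [ev_lin2 t 2 2 (fun x => g x ^ 4) (fun _ => κ ^ 2), ev_const t hzt]
    have := (H' t h0 h1).2.2.1
    nlinarith
  · intro t h0 h1
    have := (H' t h0 h1).2.2.2.2.2.2.1
    rw [one_div, inv_mul_le_iff₀ hM0]
    exact this
  · intro t h0 h1
    have := (H' t h0 h1).2.2.2.2.2.2.2.1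
    have h2 : 0 ≤ M * N := by positivity
    linarith
  · intro t h0 h1
    have := (H' t h0 h1).2.2.2.2.2.2.2.2
    have h2 : 0 ≤ M * N ^ 2 := by positivity
    linarith
  · simp only [hfg]
    linarith
  · refine (ev_mono hω 0 (G := fun x => 8 * g x ^ 4 + 8 * (f x - g x) ^ 4) fun x => ?_).trans ?_
    · have h1 : (g x + (f x - g x)) ^ 2 ≤ 2 * (g x ^ 2 + (f x - g x) ^ 2) := by
        nlinarith [sq_nonneg (g x - (f x - g x))]
      have h2 := pow_le_pow_left₀ (sq_nonneg _) h1 2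
      nlinarith [sq_nonneg (g x ^ 2 - (f x - g x) ^ 2)]
    · rw [ev_lin2 0 8 8 (fun x => g x ^ 4) (fun x => (f x - g x) ^ 4)]
      have h1 : κ ^ 2 ≤ 1 := by nlinarith
      have h2 : M * κ ^ 2 ≤ M * 1 := mul_le_mul_of_nonneg_left h1 hM0.le
      linarith

end Pool.Agent.MP_9e8696_an.H91
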