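import Pool.Agent.MP_9e8696_an.H91.RowAbs
import Pool.Agent.MP_9e8696_an.H12.Tool

/-!
The local inequality `Loc` on the cube, from the toolbox and the abstract estimate.
-/

namespace Pool.Agent.MP_9e8696_an.H91

open Finset H68 H82 H99

variable {ι : Type} [Fintype ι] [DecidableEq ι]

omit [DecidableEq ι] in
lemma qf_comb (a t : ℝ) (J₀ J₁ : ι → ι → ℝ) (u : ι → ℝ) :
    qf (fun i j => a * J₀ i j + t * J₁ i j) u = a * qf J₀ u + t * qf J₁ u := by
  unfold qf
  simp only [Finset.mul_sum, ← Finset.sum_add_distrib]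
  exact Finset.sum_congr rfl fun i _ => Finset.sum_congr rfl fun j _ => by ring

lemma tE_qE (a t : ℝ) (J₀ J₁ : ι → ι → ℝ) (F : (ι → Bool) → ℝ) :
    tE (fun x : ι → Bool => Real.exp (a * qf J₀ fun i => sg (x i))) (yq J₁) t F
      = qE (fun i j => a * J₀ i j + t * J₁ i j) F := by
  unfold tE qE
  have h : ∀ x : ι → Bool, Real.exp (a * qf J₀ fun i => sg (x i)) * Real.exp (t * yq J₁ x)
      = Real.exp (-(t * ∑ i, J₁ i i))
        * Real.exp (qf (fun i j => a * J₀ i j + t * J₁ i j) fun i => sg (x i)) := by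
    intro x
    rw [← Real.exp_add, ← Real.exp_add, qf_comb]
    congr 1
    unfold yq
    ring
  simp only [h, mul_assoc, ← Finset.mul_sum]
  rw [mul_div_mul_left _ _ (Real.exp_pos _).ne']

lemma gE_qE (e : ℝ) (J₀ J₁ : ι → ι → ℝ) (F : (ι → Bool) → ℝ) :
    gE e (fun i j => J₀ i j + J₁ i j) F
      = qE (fun i j => 1 / (1 - e) * J₀ i j + 1 / (1 - e) * J₁ i j) F := by
  unfold gE qE gw
  have h : ∀ u : ι → ℝ, qf (fun i j => J₀ i j + J₁ i j) u / (1 - e)
      = qf (fun i j => 1 / (1 - e) * J₀ i j + 1 / (1 - e) * J₁ i j) u := by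
    intro u
    have := qf_comb 1 1 J₀ J₁ u
    simp only [one_mul] at this
    rw [qf_comb, this]
    ring
  simp only [h]

omit [DecidableEq ι] in
lemma lf_sub (b c : ι → ℝ) (x : ι → Bool) : lf b x - lf c x = lf (fun i => b i - c i) x := by
  unfold lf
  rw [← Finset.sum_sub_distrib]
  exact Finset.sum_congr rfl fun i _ => by ring

lemma qf_single (J : ι → ι → ℝ) (k : ι) : qf J (fun i => if i = k then 1 else 0) = J k k := by
  unfold qf
  simp

lemma qE_add_const (Q : ι → ι → ℝ) (F : (ι → Bool) → ℝ) (κ : ℝ) :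
    qE Q (fun x => F x + κ) = qE Q F + κ := by
  unfold qE
  have hZ : 0 < ∑ x : ι → Bool, Real.exp (qf Q fun i => sg (x i)) :=
    Finset.sum_pos (fun x _ => Real.exp_pos _) Finset.univ_nonempty
  simp only [mul_add, Finset.sum_add_distrib, ← Finset.sum_mul]
  field_simp

theorem rowGlue : RowGlue := by
  rintro ⟨M, d₀, hM, hd₀, hT⟩ hAbs
  obtain ⟨C, e₀, hC, he₀, he₀2, H⟩ := hAbs (4 * M) (by linarith)
  refine ⟨max C 12, e₀, min (d₀ / 2) (1 / 24), le_max_of_le_left hC, he₀, by positivity, ?_⟩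
  intro ι _ _ J₀ J₁ b c δ e hs0 hs1 hp0 hp1 hup hb hκ hbc he hee hδ hδd
  have hδ1 : δ ≤ d₀ / 2 := hδd.trans (min_le_left _ _)
  have hδ2 : δ ≤ 1 / 24 := hδd.trans (min_le_right _ _)
  have h1e : 0 < 1 - e := by linarith
  set lam := 1 / (1 - e) with hlamd
  have hlam : lam * (1 - e) = 1 := by rw [hlamd]; field_simp
  have hl0 : 0 < lam := by positivity
  have hl1 : 1 ≤ lam := by nlinarith
  have hl2 : lam ≤ 2 := by nlinarith
  set κ := 1 - ∑ i, c i ^ 2 with hκd
  have hc0 : 0 ≤ ∑ i, c i ^ 2 := Finset.sum_nonneg fun i _ => sq_nonneg _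
  have hκ1 : κ ≤ 1 := by linarith
  have hup' : ∀ t, 0 ≤ t → t ≤ lam → ∀ u,
      qf (fun i j => lam * J₀ i j + t * J₁ i j) u ≤ 2 * δ * ∑ i, u i ^ 2 := by
    intro t h0 h1 u
    rw [qf_comb]
    have h2 := hup u
    have h3 := hp0 u
    have h4 := hp1 u
    nlinarith
  have hlo' : ∀ t, 0 ≤ t → ∀ u, 0 ≤ qf (fun i j => lam * J₀ i j + t * J₁ i j) u := by
    intro t h0 u
    rw [qf_comb]
    exact add_nonneg (mul_nonneg hl0.le (hp0 u)) (mul_nonneg h0 (hp1 u))
  have hT' : ∀ t, 0 ≤ t → t ≤ lam → _ := fun t h0 h1 =>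
    hT ι (fun i j => lam * J₀ i j + t * J₁ i j) (2 * δ)
      (fun i j => by rw [hs0 i j, hs1 i j]) (hlo' t h0) (hup' t h0 h1) (by positivity)
      (by linarith)
  have hdiag : ∀ t, 0 ≤ t → t ≤ lam → ∀ u : ι → ℝ,
      ∑ i, u i ^ 2 * (lam * J₀ i i + t * J₁ i i) ≤ 2 * δ * ∑ i, u i ^ 2 := by
    intro t h0 h1 u
    rw [Finset.mul_sum]
    refine Finset.sum_le_sum fun i _ => ?_
    have h2 := hup' t h0 h1 (fun k => if k = i then 1 else 0)
    rw [qf_single] at h2
    simp only [ite_pow, one_pow, ne_eq, OfNat.ofNat_ne_zero, not_false_eq_true, zero_pow,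
      Finset.sum_ite_eq', Finset.mem_univ, if_true, mul_one] at h2
    nlinarith [sq_nonneg (u i)]
  set G := qf J₀ b with hG
  set T := ∑ i, b i ^ 2 * J₀ i i with hTd
  have hG0 : 0 ≤ G := hp0 b
  have hT0 : 0 ≤ T := Finset.sum_nonneg fun i _ => mul_nonneg (sq_nonneg _) (by
    have := hp0 (fun k => if k = i then 1 else 0)
    rwa [qf_single] at this)
  have hTe : ∑ i, b i ^ 2 * (lam * J₀ i i + 0 * J₁ i i) = lam * T := by
    rw [hTd, Finset.mul_sum]
    exact Finset.sum_congr rfl fun i _ => by ring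
  have hTu : lam * T ≤ 2 * δ := by
    have := hdiag 0 le_rfl hl0.le b
    rw [hTe, hb] at this
    linarith
  have hN : 0 ≤ off J₁ :=
    Finset.sum_nonneg fun i _ => Finset.sum_nonneg fun j _ => by split_ifs <;> positivity
  have hbc0 : 0 ≤ ∑ i, (b i - c i) ^ 2 := Finset.sum_nonneg fun i _ => sq_nonneg _
  have key := H (ι → Bool) (fun x => Real.exp (lam * qf J₀ fun i => sg (x i))) (yq J₁) (lf b)
    (lf c) κ (off J₁) (lam * G - 3 * (lam * T)) e (fun x => Real.exp_pos _) hκ hκ1 hN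
    (by nlinarith) he hee ?_ ?_
  · simp only [tE_qE] at key
    rw [gE_qE, gE_qE, gE_qE]
    refine le_trans (Real.exp_le_exp.2 ?_) key
    have h1 : G / 4 - 12 * T
        ≤ min ((lam * G - 3 * (lam * T)) / 4) (2 * (lam * G - 3 * (lam * T))) :=
      le_min (by nlinarith) (by nlinarith)
    have h2 : 12 * T ≤ max C 12 * T := mul_le_mul_of_nonneg_right (le_max_right _ _) hT0
    have h3 : C * (e * κ) ≤ max C 12 * (e * κ) :=
      mul_le_mul_of_nonneg_right (le_max_left _ _) (by positivity)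
    have e1 : ew c = fun x => lf c x ^ 2 + κ := rfl
    rw [e1]
    nlinarith
  · intro t h0 h1
    obtain ⟨a2, a4, aG, aA⟩ := hT' t h0 h1
    obtain ⟨v1, v2, v4⟩ := aA J₁ hs1
    simp only [tE_qE, lf_sub]
    have hc1 : ∑ i, c i ^ 2 ≤ 1 := by linarith
    have hV : 0 ≤ M * off J₁ := by positivity
    have hV2 : 0 ≤ M * off J₁ ^ 2 := by positivity
    refine ⟨?_, ?_, ?_, ?_, ?_, ?_, ?_, by linarith, by linarith⟩
    · have := a2 b
      rw [hb] at this
      linarith
    · have := a2 c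
      linarith
    · have := a4 c
      have h2 : (∑ i, c i ^ 2) ^ 2 ≤ 1 := by nlinarith
      nlinarith
    · have := a2 (fun i => b i - c i)
      nlinarith
    · have := a4 (fun i => b i - c i)
      have h2 : (∑ i, (b i - c i) ^ 2) ^ 2 ≤ (2 * κ) ^ 2 := pow_le_pow_left₀ hbc0 hbc 2
      nlinarith
    · rw [qE_add_const]
      have h2 := aG c
      have h3 := hdiag t h0 h1 c
      have h4 := hlo' t h0 c
      nlinarith
    · by_cases h : 0 ≤ qE (fun i j => lam * J₀ i j + t * J₁ i j)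
          (fun x => (yq J₁ x - qE (fun i j => lam * J₀ i j + t * J₁ i j) (yq J₁)) ^ 2)
      · nlinarith
      · exact absurd (hN.trans v1) (by nlinarith [not_le.1 h])
  · rw [tE_qE]
    have := (hT' 0 le_rfl hl0.le).2.2.1 b
    rw [hTe, hb, qf_comb] at this
    linarith

/-- The local one-label inequality holds with absolute constants. -/
theorem loc : ∃ C e₀ d₀ : ℝ, 0 ≤ C ∧ 0 < e₀ ∧ 0 < d₀ ∧ Loc C e₀ d₀ :=
  rowGlue H12.rowTool rowAbs

end Pool.Agent.MP_9e8696_an.H91
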