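import Pool.Agent.MP_9e8696_an.H91.Tilt

/-!
The local estimate for one label, on an abstract finite space with moment hypotheses.
-/

namespace Pool.Agent.MP_9e8696_an.H91

open Finset

/-- Pointwise comparison of `X = (z+r)^2` and `w = z^2 + κ`. -/
lemma pw_dev {z r κ : ℝ} (hκ : 0 ≤ κ) (hr : κ = 0 → r = 0) :
    ((z + r) ^ 2 - (z ^ 2 + κ)) ^ 2 ≤ (z ^ 2 + κ) * (3 * (4 * r ^ 2 + r ^ 4 / κ + κ)) := by
  rcases hκ.eq_or_lt with h0 | hpos
  · subst h0
    rw [hr rfl]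
    simp
  · have h1 : ((z + r) ^ 2 - (z ^ 2 + κ)) ^ 2 ≤ 3 * (4 * (z ^ 2 * r ^ 2) + r ^ 4 + κ ^ 2) := by
      nlinarith [sq_nonneg (2 * z * r - r ^ 2), sq_nonneg (2 * z * r + κ), sq_nonneg (r ^ 2 + κ)]
    have hq : 0 ≤ r ^ 4 / κ := by positivity
    have h2 : r ^ 4 = κ * (r ^ 4 / κ) := by field_simp
    have h3 : 0 ≤ z ^ 2 * (r ^ 4 / κ) := by positivity
    have h4 : 0 ≤ κ * r ^ 2 := by positivity
    have h5 : 0 ≤ z ^ 2 * κ := by positivity
    nlinarith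

lemma pw_dev2 (z r κ : ℝ) :
    ((z ^ 2 + κ) - (z + r) ^ 2) ^ 2 ≤ 12 * (z ^ 2 * r ^ 2) + 3 * r ^ 4 + 3 * κ ^ 2 := by
  nlinarith [sq_nonneg (2 * z * r - r ^ 2), sq_nonneg (2 * z * r + κ), sq_nonneg (r ^ 2 + κ)]

/-- The tangent-line inequality behind the Jensen step. -/
lemma pw_main {X w D e ρ m s : ℝ} (hX : 0 ≤ X) (hw : 0 ≤ w) (hD : 0 ≤ D)
    (hdev : (X - w) ^ 2 ≤ w * D) (he : 0 < e) (he1 : e < 1) (hρ : 0 < ρ) :
    Real.exp m * (X * (1 + e * Real.log ρ + e + s - m) - e * ρ * (D + 2 * X - w))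
      ≤ X ^ (1 - e) * w ^ e * Real.exp s := by
  rcases hX.eq_or_lt with h0 | hXp
  · subst h0
    have hwD : w ≤ D := by
      rcases hw.eq_or_lt with h | h
      · rw [← h]; exact hD
      · nlinarith
    rw [Real.zero_rpow (by linarith)]
    have : 0 ≤ e * ρ * (D - w) := mul_nonneg (mul_pos he hρ).le (by linarith)
    have h2 := Real.exp_pos m
    nlinarith
  · have hwp : 0 < w := by
      rcases hw.eq_or_lt with h | h
      · rw [← h] at hdev
        nlinarith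
      · exact h
    have e1 : X ^ (1 - e) * w ^ e * Real.exp s
        = Real.exp m * (X * Real.exp (e * (Real.log w - Real.log X) + s - m)) := by
      rw [Real.rpow_def_of_pos hXp, Real.rpow_def_of_pos hwp]
      nth_rewrite 2 [← Real.exp_log hXp]
      rw [← Real.exp_add, ← Real.exp_add, ← Real.exp_add, ← Real.exp_add]
      congr 1
      ring
    rw [e1]
    refine mul_le_mul_of_nonneg_left ?_ (Real.exp_pos m).le
    have h1 := Real.add_one_le_exp (e * (Real.log w - Real.log X) + s - m)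
    have h2 := Real.one_sub_inv_le_log_of_pos (show 0 < w / (ρ * X) by positivity)
    rw [Real.log_div hwp.ne' (by positivity), Real.log_mul hρ.ne' hXp.ne', inv_div] at h2
    have h3 : X * (ρ * X / w) ≤ ρ * (D + 2 * X - w) := by
      have : X * (ρ * X / w) = ρ * (X ^ 2 / w) := by ring
      rw [this]
      refine mul_le_mul_of_nonneg_left ?_ hρ.le
      rw [div_le_iff₀ hwp]
      nlinarith
    have h4 : X * (1 - ρ * X / w) ≤ X * (Real.log w - (Real.log ρ + Real.log X)) :=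
      mul_le_mul_of_nonneg_left h2 hXp.le
    have h5 : X * (e * (Real.log w - Real.log X) + s - m + 1)
        ≤ X * Real.exp (e * (Real.log w - Real.log X) + s - m) :=
      mul_le_mul_of_nonneg_left h1 hXp.le
    have h6 := mul_le_mul_of_nonneg_left h4 he.le
    have h7 := mul_le_mul_of_nonneg_left h3 he.le
    nlinarith

variable {Ω : Type*} [Fintype Ω] {ω g y w : Ω → ℝ} {lam : ℝ}

lemma ev_smul (t c : ℝ) (F : Ω → ℝ) : ev ω g t (fun x => c * F x) = c * ev ω g t F := by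
  unfold ev
  rw [Finset.mul_sum]
  exact Finset.sum_congr rfl fun x _ => by ring

lemma ev_g (hg : ∀ x, g x = lam * y x) (ω' : Ω → ℝ) (t : ℝ) :
    ev ω' g t g = lam * ev ω' g t y := by
  rw [← ev_smul]
  exact ev_congr t hg

lemma var_g (hg : ∀ x, g x = lam * y x) {t : ℝ} (hz : 0 < zf ω g t) :
    ev ω g t (fun x => g x * g x) - ev ω g t g * ev ω g t g
      = lam ^ 2 * ev ω g t (fun x => (y x - ev ω g t y) ^ 2) := by
  rw [ev_var t hz g (ev ω g t g), sub_self, ← ev_smul]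
  simp only [ne_eq, OfNat.ofNat_ne_zero, not_false_eq_true, zero_pow, sub_zero]
  refine ev_congr t fun x => ?_
  rw [ev_g hg, hg x]; ring

/-- Step (1): the partition function, with the variance gain. -/
lemma step1 (hω : ∀ x, 0 ≤ ω x) (hz : 0 < zf ω g 0) (hg : ∀ x, g x = lam * y x) (hl : 1 ≤ lam)
    {a : ℝ} (ha : ∀ t, 0 ≤ t → t ≤ 1 → a ≤ ev ω g t (fun x => (y x - ev ω g t y) ^ 2)) :
    -(lam * ev ω g 1 y) + a / 2 ≤ Real.log (zf ω g 0) - Real.log (zf ω g 1) := by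
  have hz' : ∀ t, 0 < zf ω g t := fun t => zf_pos hω t 0 hz
  have := taylor_back (a := a) (fun u => log_zf_deriv u (hz' u)) (fun u => ev_deriv u (hz' u) g)
    (fun u h0 h1 => by
      rw [var_g hg (hz' u)]
      have h2 := ha u h0 h1
      have h3 : 0 ≤ ev ω g u (fun x => (y x - ev ω g u y) ^ 2) :=
        ev_nonneg hω u fun x => sq_nonneg _
      have h4 : 1 ≤ lam ^ 2 := by nlinarith
      nlinarith)
  rw [ev_g hg] at this
  exact this

/-- Step (5): the mean of `y` moves by at most the variance. -/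
lemma step5 (hω : ∀ x, 0 ≤ ω x) (hz : 0 < zf ω g 0) (hg : ∀ x, g x = lam * y x) (hl0 : 0 ≤ lam)
    (hl : lam ≤ 2) {A : ℝ}
    (hA : ∀ t, 0 ≤ t → t ≤ 1 → ev ω g t (fun x => (y x - ev ω g t y) ^ 2) ≤ A) :
    lam * ev ω g 1 y - lam * ev ω g 0 y ≤ 4 * A := by
  have hz' : ∀ t, 0 < zf ω g t := fun t => zf_pos hω t 0 hz
  have := mv_le (A := 4 * A) (t := 1) (fun u => ev_deriv u (hz' u) g) zero_le_one
    (fun u h0 h1 => by
      rw [var_g hg (hz' u)]
      have h2 := hA u h0 h1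
      have h3 : 0 ≤ ev ω g u (fun x => (y x - ev ω g u y) ^ 2) :=
        ev_nonneg hω u fun x => sq_nonneg _
      have h4 : lam ^ 2 ≤ 4 := by nlinarith
      nlinarith)
  rw [ev_g hg, ev_g hg] at this
  linarith

/-- Step (3): the logarithm of the mean of `w` to second order. -/
lemma step3 (hω : ∀ x, 0 ≤ ω x) (hz : 0 < zf ω g 0) (hg : ∀ x, g x = lam * y x) (hl0 : 0 ≤ lam)
    (hl : lam ≤ 2) (hw : ∀ x, 0 ≤ w x) {B : ℝ}
    (hw1 : ∀ t, 0 ≤ t → t ≤ 1 → 1 / 2 ≤ ev ω g t w)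
    (hB : ∀ t, 0 ≤ t → t ≤ 1 → ev ω g t (fun x => w x * (y x - ev ω g t y) ^ 2) ≤ B) :
    Real.log (ev ω g 1 w) ≤ Real.log (ev ω g 0 w)
      + lam * (ev ω g 0 (fun x => w x * (y x - ev ω g 0 y)) / ev ω g 0 w) + 4 * B := by
  have hz' : ∀ t, 0 < zf ω g t := fun t => zf_pos hω t 0 hz
  have hω' : ∀ x, 0 ≤ ω x * w x := fun x => mul_nonneg (hω x) (hw x)
  have hW0 : 0 < ev ω g 0 w := by linarith [hw1 0 le_rfl zero_le_one]
  have hW1 : 0 < ev ω g 1 w := by linarith [hw1 1 zero_le_one le_rfl]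
  have hzw0 : 0 < zf (fun x => ω x * w x) g 0 := by
    rw [zf_rew 0 hz]; positivity
  have hzw : ∀ t, 0 < zf (fun x => ω x * w x) g t := fun t => zf_pos hω' t 0 hzw0
  have h1 := taylor_up (A := 8 * B) (fun u => log_zf_deriv u (hzw u))
    (fun u => ev_deriv u (hzw u) g) (fun u h0 h1 => by
      rw [ev_var u (hzw u) g (lam * ev ω g u y), ev_rew u (hz' u)]
      have e1 : ev ω g u (fun x => w x * (g x - lam * ev ω g u y) ^ 2)
          = lam ^ 2 * ev ω g u (fun x => w x * (y x - ev ω g u y) ^ 2) := by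
        rw [← ev_smul u (lam ^ 2)]
        exact ev_congr u fun x => by rw [hg x]; ring
      rw [e1]
      have h2 := hB u h0 h1
      have h3 : 0 ≤ ev ω g u (fun x => w x * (y x - ev ω g u y) ^ 2) :=
        ev_nonneg hω u fun x => mul_nonneg (hw x) (sq_nonneg _)
      have h4 : lam ^ 2 ≤ 4 := by nlinarith
      have h5 := hw1 u h0 h1
      have h6 : lam ^ 2 * ev ω g u (fun x => w x * (y x - ev ω g u y) ^ 2) / ev ω g u w
          ≤ 8 * B := by
        rw [div_le_iff₀ (by linarith)]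
        nlinarith
      nlinarith [sq_nonneg (ev (fun x => ω x * w x) g u g - lam * ev ω g u y)])
  have h2 := taylor_lo (a := 0) (fun u => log_zf_deriv u (hz' u)) (fun u => ev_deriv u (hz' u) g)
    (fun u _ _ => by
      rw [var_g hg (hz' u)]
      exact mul_nonneg (sq_nonneg _) (ev_nonneg hω u fun x => sq_nonneg _))
  rw [zf_rew 1 (hz' 1), zf_rew 0 hz, Real.log_mul hW1.ne' (hz' 1).ne',
    Real.log_mul hW0.ne' hz.ne', ev_g hg, ev_rew 0 hz] at h1
  rw [ev_g hg] at h2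
  rw [← ev_cov]
  have e2 : (ev ω g 0 (fun x => w x * y x) - ev ω g 0 w * ev ω g 0 y) / ev ω g 0 w
      = ev ω g 0 (fun x => w x * y x) / ev ω g 0 w - ev ω g 0 y := by
    field_simp
  rw [e2]
  linarith

/-- Step (6): the mean of `w` moves by at most a covariance. -/
lemma step6 (hω : ∀ x, 0 ≤ ω x) (hz : 0 < zf ω g 0) (hg : ∀ x, g x = lam * y x) (hl0 : 0 ≤ lam)
    (hl : lam ≤ 2) {B : ℝ}
    (hB : ∀ t, 0 ≤ t → t ≤ 1 → ev ω g t (fun x => w x * (y x - ev ω g t y)) ^ 2 ≤ B) :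
    (ev ω g 1 w - ev ω g 0 w) ^ 2 ≤ 4 * B := by
  have hz' : ∀ t, 0 < zf ω g t := fun t => zf_pos hω t 0 hz
  obtain ⟨c, hc, hce⟩ := exists_hasDerivAt_eq_slope (fun t => ev ω g t w) _ zero_lt_one
    (fun u _ => (ev_deriv u (hz' u) w).continuousAt.continuousWithinAt)
    (fun u _ => ev_deriv u (hz' u) w)
  rw [sub_zero, div_one] at hce
  rw [← hce, ev_cov]
  have e1 : ev ω g c (fun x => w x * (g x - ev ω g c g))
      = lam * ev ω g c (fun x => w x * (y x - ev ω g c y)) := by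
    rw [← ev_smul]
    exact ev_congr c fun x => by rw [ev_g hg, hg x]; ring
  rw [e1, mul_pow]
  have h2 := hB c hc.1.le hc.2.le
  have h4 : lam ^ 2 ≤ 4 := by nlinarith
  nlinarith [sq_nonneg (ev ω g c (fun x => w x * (y x - ev ω g c y)))]

/-- The final real-number bookkeeping. -/
lemma book {e lam M N κ c0 A W W1 D y0 y1 cX cw lZ lA lW lW1 : ℝ} (he : 0 < e) (he2 : e ≤ 1 / 2)
    (hlam : lam * (1 - e) = 1) (hM : 1 ≤ M) (hN : 0 ≤ N) (hκ : 0 ≤ κ) (hc : 72 * e * M ^ 2 ≤ c0)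
    (hA1 : 1 / 2 ≤ A) (hW2 : W ≤ 8 * A ^ 2) (hD0 : 0 ≤ D) (hD : D ≤ 18 * M * κ)
    (h1 : -(lam * y1) + c0 * N / 2 ≤ lZ) (h5 : lam * y1 - lam * y0 ≤ 4 * (M * N))
    (h3 : lW1 ≤ lW + lam * cw + 4 * (M * N)) (h4 : cw - cX ≤ 162 * M * κ + 2 * M ^ 2 * N)
    (h6 : W1 - 1 - 2 * (12 * M ^ 2 * N + 54 * M * κ + 3 * (A - 1) ^ 2) ≤ lW1) :
    (1 - e) * lA - 6 * e * (A - 1) ^ 2 + e * (W1 - 1) - y1 - 576 * e * M * κ
      ≤ lA + (e * (lW - lA) + e + e * lam * (cX + y0) - e * (W / A) * (D + 2 * A - W) / A)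
        + lZ := by
  have hl0 : 0 < lam := by
    by_contra h
    nlinarith
  have hl2 : lam ≤ 2 := by nlinarith
  have hA0 : 0 < A := by linarith
  have h2 : -(144 * M * κ) ≤ 1 - (W / A) * (D + 2 * A - W) / A := by
    have e1 : 1 - (W / A) * (D + 2 * A - W) / A = ((A - W) ^ 2 - W * D) / A ^ 2 := by
      field_simp; ring
    rw [e1, le_div_iff₀ (by positivity)]
    have h7 : W * D ≤ 8 * A ^ 2 * D := mul_le_mul_of_nonneg_right hW2 hD0
    have h8 : 8 * A ^ 2 * D ≤ 8 * A ^ 2 * (18 * M * κ) :=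
      mul_le_mul_of_nonneg_left hD (by positivity)
    nlinarith [sq_nonneg (A - W)]
  have hMN : 0 ≤ M * N := by positivity
  have hMM : M * N ≤ M ^ 2 * N := by nlinarith
  have h9 : lam * (cw - cX) ≤ 2 * (162 * M * κ + 2 * M ^ 2 * N) := by
    have : 0 ≤ 162 * M * κ + 2 * M ^ 2 * N := by positivity
    nlinarith
  have hin : W1 - 1 - 6 * (A - 1) ^ 2 - 576 * M * κ - 36 * M ^ 2 * N + lam * y1
      ≤ lW + (1 - (W / A) * (D + 2 * A - W) / A) + lam * (cX + y0) := by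
    nlinarith
  have h10 := mul_le_mul_of_nonneg_left hin he.le
  have h11 : 72 * e * M ^ 2 * N ≤ c0 * N := mul_le_mul_of_nonneg_right hc hN
  have h12 : lam * y1 - e * (lam * y1) = y1 := by linear_combination y1 * hlam
  have e2 : e * (W / A) * (D + 2 * A - W) / A = e * ((W / A) * (D + 2 * A - W) / A) := by ring
  rw [e2]
  nlinarith

end Pool.Agent.MP_9e8696_an.H91
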