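import Pool.Agent.MP_9e8696_an.H91.LocAbs

/-!
The abstract local estimate.
-/

namespace Pool.Agent.MP_9e8696_an.H91

open Finset

variable {Ω : Type*} [Fintype Ω] {ω g y : Ω → ℝ} {lam : ℝ}

/-- The Jensen step. -/
lemma step0 (hω : ∀ x, 0 ≤ ω x) (hz : 0 < zf ω g 0) (hg : ∀ x, g x = lam * y x)
    {e : ℝ} (he : 0 < e) (he1 : e < 1) (hlam : lam * (1 - e) = 1) {X w D : Ω → ℝ}
    (hX : ∀ x, 0 ≤ X x) (hw : ∀ x, 0 ≤ w x) (hD : ∀ x, 0 ≤ D x)
    (hdev : ∀ x, (X x - w x) ^ 2 ≤ w x * D x) (hA : 0 < ev ω g 0 X) (hW : 0 < ev ω g 0 w) :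
    Real.exp (Real.log (ev ω g 0 X) +
      (e * (Real.log (ev ω g 0 w) - Real.log (ev ω g 0 X)) + e
        + e * lam * (ev ω g 0 (fun x => X x * (y x - ev ω g 0 y)) / ev ω g 0 X + ev ω g 0 y)
        - e * (ev ω g 0 w / ev ω g 0 X) * (ev ω g 0 D + 2 * ev ω g 0 X - ev ω g 0 w)
          / ev ω g 0 X) + (Real.log (zf ω g 0) - Real.log (zf ω g 1)))
      ≤ ev ω g 1 (fun x => X x ^ (1 - e) * w x ^ e * Real.exp (-y x)) := by
  have hz1 : 0 < zf ω g 1 := zf_pos hω 1 0 hz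
  set A := ev ω g 0 X with hAd
  set W := ev ω g 0 w with hWd
  set m := e * (Real.log W - Real.log A) + e
        + e * lam * (ev ω g 0 (fun x => X x * (y x - ev ω g 0 y)) / A + ev ω g 0 y)
        - e * (W / A) * (ev ω g 0 D + 2 * A - W) / A with hm
  rw [ev_one hz, Real.exp_add, Real.exp_add, Real.exp_log hA, Real.exp_sub (Real.log _), Real.exp_log hz,
    Real.exp_log hz1]
  refine mul_le_mul_of_nonneg_right ?_ (by positivity)
  have hρ : 0 < W / A := by positivity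
  have h1 : ev ω g 0 (fun x => Real.exp m * (X x * (1 + e * Real.log (W / A) + e
      + e * lam * y x - m) - e * (W / A) * (D x + 2 * X x - w x)))
      ≤ ev ω g 0 (fun x => X x ^ (1 - e) * w x ^ e * Real.exp (-y x) * Real.exp (g x)) := by
    refine ev_mono hω 0 fun x => ?_
    have := pw_main (m := m) (s := e * lam * y x) (hX x) (hw x) (hD x) (hdev x) he he1 hρ
    refine this.trans (le_of_eq ?_)
    rw [mul_assoc _ (Real.exp (-y x)), ← Real.exp_add, hg x]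
    congr 2
    linear_combination (-y x) * hlam
  refine le_trans (le_of_eq ?_) h1
  rw [ev_smul]
  have e1 : ev ω g 0 (fun x => X x * (1 + e * Real.log (W / A) + e
      + e * lam * y x - m) - e * (W / A) * (D x + 2 * X x - w x))
      = ev ω g 0 (fun x => (1 + e * Real.log (W / A) + e - m - 2 * (e * (W / A))) * X x
        + (e * lam) * (X x * y x) + 1 * (-(e * (W / A)) * D x + (e * (W / A)) * w x)) :=
    ev_congr 0 fun x => by ring
  rw [e1, ev_lin3, ev_lin2, ← hAd, ← hWd, Real.log_div hW.ne' hA.ne', mul_comm A]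
  congr 1
  have e2 := ev_cov (ω := ω) (g := g) 0 X y
  rw [← hAd] at e2
  have e3 : ev ω g 0 (fun x => X x * y x)
      = ev ω g 0 (fun x => X x * (y x - ev ω g 0 y)) + A * ev ω g 0 y := by linarith
  rw [e3, hm]
  field_simp
  ring

/-- The abstract local estimate: moment bounds along the tilt give the one-label gain. -/
theorem loc_abs (z r : Ω → ℝ) {κ e M N c0 : ℝ}
    (hω : ∀ x, 0 ≤ ω x) (hz : 0 < zf ω g 0) (hg : ∀ x, g x = lam * y x)
    (he : 0 < e) (he2 : e ≤ 1 / 2) (hlam : lam * (1 - e) = 1)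
    (hκ : 0 ≤ κ) (hκ1 : κ ≤ 1) (hr0 : κ = 0 → ∀ x, r x = 0)
    (hM : 1 ≤ M) (hN : 0 ≤ N) (hc : 72 * e * M ^ 2 ≤ c0)
    (hw1 : ∀ t, 0 ≤ t → t ≤ 1 → 1 / 2 ≤ ev ω g t (fun x => z x ^ 2 + κ))
    (hw1' : ev ω g 0 (fun x => z x ^ 2 + κ) ≤ 8 * ev ω g 0 (fun x => (z x + r x) ^ 2) ^ 2)
    (hw2 : ∀ t, 0 ≤ t → t ≤ 1 → ev ω g t (fun x => (z x ^ 2 + κ) ^ 2) ≤ M)
    (hvl : ∀ t, 0 ≤ t → t ≤ 1 → c0 * N ≤ ev ω g t (fun x => (y x - ev ω g t y) ^ 2))
    (hvu : ∀ t, 0 ≤ t → t ≤ 1 → ev ω g t (fun x => (y x - ev ω g t y) ^ 2) ≤ M * N)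
    (hv4 : ∀ t, 0 ≤ t → t ≤ 1 → ev ω g t (fun x => (y x - ev ω g t y) ^ 4) ≤ M * N ^ 2)
    (hA1 : 1 / 2 ≤ ev ω g 0 (fun x => (z x + r x) ^ 2))
    (hX2 : ev ω g 0 (fun x => (z x + r x) ^ 4) ≤ M)
    (hr2 : ev ω g 0 (fun x => r x ^ 2) ≤ M * κ)
    (hr4 : ev ω g 0 (fun x => r x ^ 4) ≤ M * κ ^ 2) :
    Real.exp ((1 - e) * Real.log (ev ω g 0 (fun x => (z x + r x) ^ 2))
        - 6 * e * (ev ω g 0 (fun x => (z x + r x) ^ 2) - 1) ^ 2
        + e * (ev ω g 1 (fun x => z x ^ 2 + κ) - 1) - ev ω g 1 y - 576 * e * M * κ)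
      ≤ ev ω g 1 (fun x => ((z x + r x) ^ 2) ^ (1 - e) * (z x ^ 2 + κ) ^ e * Real.exp (-y x)) := by
  have hl0 : 0 < lam := by
    by_contra h
    nlinarith
  have hl1 : 1 ≤ lam := by nlinarith
  have hl2 : lam ≤ 2 := by nlinarith
  have hz' : ∀ t, 0 < zf ω g t := fun t => zf_pos hω t 0 hz
  have hwn : ∀ x, 0 ≤ z x ^ 2 + κ := fun x => by positivity
  have hW1 := hw1 0 le_rfl zero_le_one
  have hMN : 0 ≤ M * N := by positivity
  have hMκ : 0 ≤ M * κ := by positivity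
  refine le_trans ?_ (step0 (X := fun x => (z x + r x) ^ 2) (w := fun x => z x ^ 2 + κ)
    (D := fun x => 3 * (4 * r x ^ 2 + r x ^ 4 / κ + κ)) hω hz hg he (by linarith) hlam
    (fun x => sq_nonneg _) hwn (fun x => by positivity)
    (fun x => pw_dev hκ fun h => hr0 h x) (by linarith) (by linarith))
  set A := ev ω g 0 (fun x => (z x + r x) ^ 2) with hAd
  set W := ev ω g 0 (fun x => z x ^ 2 + κ) with hWd
  set W1 := ev ω g 1 (fun x => z x ^ 2 + κ) with hW1d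
  have hA0 : 0 < A := by linarith
  have hW0 : 0 < W := by linarith
  -- covariances with the centred tilt
  have hcov : ∀ t, 0 ≤ t → t ≤ 1 →
      ev ω g t (fun x => (z x ^ 2 + κ) * (y x - ev ω g t y)) ^ 2 ≤ M ^ 2 * N := by
    intro t h0 h1
    refine (ev_cs hω t _ _).trans ?_
    have := mul_le_mul (hw2 t h0 h1) (hvu t h0 h1) (ev_nonneg hω t fun x => sq_nonneg _)
      (by linarith)
    nlinarith
  have hB : ∀ t, 0 ≤ t → t ≤ 1 →
      ev ω g t (fun x => (z x ^ 2 + κ) * (y x - ev ω g t y) ^ 2) ≤ M * N := by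
    intro t h0 h1
    refine (abs_le_of_sq_le_sq' ((ev_cs hω t _ _).trans ?_) hMN).2
    have e1 : ev ω g t (fun x => ((y x - ev ω g t y) ^ 2) ^ 2)
        = ev ω g t (fun x => (y x - ev ω g t y) ^ 4) := ev_congr t fun x => by ring
    rw [e1]
    have := mul_le_mul (hw2 t h0 h1) (hv4 t h0 h1) (ev_nonneg hω t fun x => by positivity)
      (by linarith)
    nlinarith
  -- the second moment of `w - X`
  have hzr : ev ω g 0 (fun x => z x ^ 2 * r x ^ 2) ≤ M * κ := by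
    refine (abs_le_of_sq_le_sq' ((ev_cs hω 0 _ _).trans ?_) hMκ).2
    have e1 : ev ω g 0 (fun x => (r x ^ 2) ^ 2) = ev ω g 0 (fun x => r x ^ 4) :=
      ev_congr 0 fun x => by ring
    have e2 : ev ω g 0 (fun x => (z x ^ 2) ^ 2) ≤ M :=
      (ev_mono hω 0 fun x => by nlinarith [sq_nonneg (z x)]).trans (hw2 0 le_rfl zero_le_one)
    rw [e1]
    have := mul_le_mul e2 hr4 (ev_nonneg hω 0 fun x => by positivity) (by linarith)
    nlinarith
  have hS : ev ω g 0 (fun x => ((z x ^ 2 + κ) - (z x + r x) ^ 2) ^ 2) ≤ 18 * M * κ := by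
    refine (ev_mono hω 0 (G := fun x => 12 * (z x ^ 2 * r x ^ 2) + 3 * r x ^ 4 + 3 * κ ^ 2)
      fun x => pw_dev2 _ _ _).trans ?_
    rw [ev_lin3 0 12 3 3 (fun x => z x ^ 2 * r x ^ 2) (fun x => r x ^ 4) (fun _ => κ ^ 2),
      ev_const 0 hz]
    have h1 : κ ^ 2 ≤ κ := by nlinarith
    have h2 : M * κ ^ 2 ≤ M * κ := mul_le_mul_of_nonneg_left h1 (by linarith)
    have h3 : κ ≤ M * κ := by nlinarith
    linarith
  have hWA : (W - A) ^ 2 ≤ 18 * M * κ := by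
    have h1 := ev_cs (g := g) hω 0 (fun x => (z x ^ 2 + κ) - (z x + r x) ^ 2) (fun _ => 1)
    rw [ev_const 0 hz] at h1
    have e1 : ev ω g 0 (fun x => ((z x ^ 2 + κ) - (z x + r x) ^ 2) * 1) = W - A := by
      have := ev_lin2 (ω := ω) (g := g) 0 1 (-1) (fun x => z x ^ 2 + κ) (fun x => (z x + r x) ^ 2)
      rw [← hAd, ← hWd] at this
      rw [ev_congr 0 (G := fun x => 1 * (z x ^ 2 + κ) + -1 * (z x + r x) ^ 2) fun x => by ring,
        this]
      ring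
    rw [e1] at h1
    linarith
  refine Real.exp_le_exp.2 (book (W1 := W1) (lW1 := Real.log W1) (N := N) (c0 := c0)
    (cw := ev ω g 0 (fun x => (z x ^ 2 + κ) * (y x - ev ω g 0 y)) / W)
    he he2 hlam hM hN hκ hc hA1 hw1' (ev_nonneg hω 0 fun x => by positivity) ?_
    (step1 hω hz hg hl1 hvl) (step5 hω hz hg hl0.le hl2 hvu)
    (step3 hω hz hg hl0.le hl2 hwn hw1 hB) ?_ ?_)
  · -- the mean of `D`
    have e1 : ev ω g 0 (fun x => 3 * (4 * r x ^ 2 + r x ^ 4 / κ + κ))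
        = ev ω g 0 (fun x => 12 * r x ^ 2 + (3 / κ) * r x ^ 4 + 3 * κ) :=
      ev_congr 0 fun x => by ring
    rw [e1, ev_lin3 0 12 (3 / κ) 3 (fun x => r x ^ 2) (fun x => r x ^ 4) (fun _ => κ),
      ev_const 0 hz]
    have h1 : 3 / κ * ev ω g 0 (fun x => r x ^ 4) ≤ 3 * (M * κ) := by
      rcases hκ.eq_or_lt with h0 | hpos
      · rw [← h0]; simp
      · calc 3 / κ * ev ω g 0 (fun x => r x ^ 4) ≤ 3 / κ * (M * κ ^ 2) :=
              mul_le_mul_of_nonneg_left hr4 (by positivity)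
          _ = 3 * (M * κ) := by field_simp
    have h3 : κ ≤ M * κ := by nlinarith
    linarith
  · -- step (4)
    set a := ev ω g 0 (fun x => (z x ^ 2 + κ) * (y x - ev ω g 0 y)) with ha
    set b := ev ω g 0 (fun x => (z x + r x) ^ 2 * (y x - ev ω g 0 y)) with hb
    have hab : a - b ≤ (18 * M * κ + M * N) / 2 := by
      have e1 := ev_lin2 (ω := ω) (g := g) 0 1 (-1) (fun x => (z x ^ 2 + κ) * (y x - ev ω g 0 y))
        (fun x => (z x + r x) ^ 2 * (y x - ev ω g 0 y))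
      have e2 := ev_lin2 (ω := ω) (g := g) 0 (1 / 2) (1 / 2)
        (fun x => ((z x ^ 2 + κ) - (z x + r x) ^ 2) ^ 2) (fun x => (y x - ev ω g 0 y) ^ 2)
      have h1 := ev_mono (g := g) hω 0
        (F := fun x => 1 * ((z x ^ 2 + κ) * (y x - ev ω g 0 y))
          + -1 * ((z x + r x) ^ 2 * (y x - ev ω g 0 y)))
        (G := fun x => 1 / 2 * ((z x ^ 2 + κ) - (z x + r x) ^ 2) ^ 2
          + 1 / 2 * (y x - ev ω g 0 y) ^ 2)
        (fun x => by
          nlinarith [sq_nonneg (((z x ^ 2 + κ) - (z x + r x) ^ 2) - (y x - ev ω g 0 y))])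
      rw [e1, e2, ← ha, ← hb] at h1
      have := hvu 0 le_rfl zero_le_one
      linarith
    have hb2 : b ^ 2 ≤ M ^ 2 * N := by
      refine (ev_cs hω 0 _ _).trans ?_
      have e1 : ev ω g 0 (fun x => ((z x + r x) ^ 2) ^ 2) = ev ω g 0 (fun x => (z x + r x) ^ 4) :=
        ev_congr 0 fun x => by ring
      rw [e1]
      have := mul_le_mul hX2 (hvu 0 le_rfl zero_le_one) (ev_nonneg hω 0 fun x => sq_nonneg _)
        (by linarith)
      nlinarith
    have e1 : a / W - b / A = (a - b) / W + (1 / W - 1 / A) * b := by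
      field_simp; ring
    have h1 : (a - b) / W ≤ 18 * M * κ + M * N := by
      rw [div_le_iff₀ hW0]
      nlinarith
    have h2 : (1 / W - 1 / A) ^ 2 ≤ 16 * (18 * M * κ) := by
      have e2 : (1 / W - 1 / A) ^ 2 = (W - A) ^ 2 / (A * W) ^ 2 := by
        field_simp; ring
      have h3 : 1 / 4 ≤ A * W := by nlinarith
      have h4 : 1 / 16 ≤ (A * W) ^ 2 := by nlinarith
      rw [e2, div_le_iff₀ (by positivity)]
      nlinarith
    have h3 : M * N ≤ M ^ 2 * N := by nlinarith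
    have h4 : 0 ≤ M ^ 2 * N := by positivity
    rw [e1]
    nlinarith [sq_nonneg ((1 / W - 1 / A) - b)]
  · -- step (6)
    have h1 := step6 (w := fun x => z x ^ 2 + κ) hω hz hg hl0.le hl2 hcov
    rw [← hW1d, ← hWd] at h1
    have h2 := hw1 1 zero_le_one le_rfl
    rw [← hW1d] at h2
    have h3 := Real.one_sub_inv_le_log_of_pos (show 0 < W1 by linarith)
    have h4 : W1 - 1 - 2 * (W1 - 1) ^ 2 ≤ 1 - W1⁻¹ := by
      have e1 : 1 - W1⁻¹ = W1 - 1 - (W1 - 1) ^ 2 / W1 := by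
        field_simp; ring
      have : (W1 - 1) ^ 2 / W1 ≤ 2 * (W1 - 1) ^ 2 := by
        rw [div_le_iff₀ (by linarith)]
        nlinarith [sq_nonneg (W1 - 1)]
      linarith
    have h5 : (W1 - 1) ^ 2 ≤ 3 * ((W1 - W) ^ 2 + (W - A) ^ 2 + (A - 1) ^ 2) := by
      nlinarith [sq_nonneg ((W1 - W) - (W - A)), sq_nonneg ((W1 - W) - (A - 1)),
        sq_nonneg ((W - A) - (A - 1))]
    linarith

end Pool.Agent.MP_9e8696_an.H91
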