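import Mathlib

/-!
Exponential tilts of a finite weight: log-partition function, its first two derivatives and
second-order Taylor bounds on `[0,1]`.
-/

namespace Pool.Agent.MP_9e8696_an.H91

open Finset

section calculus

/-- Mean value bound on `[0,t]`. -/
lemma mv_le {f f1 : ℝ → ℝ} {A t : ℝ} (hf : ∀ u, HasDerivAt f (f1 u) u) (ht : 0 ≤ t)
    (hA : ∀ u, 0 ≤ u → u ≤ t → f1 u ≤ A) : f t - f 0 ≤ A * t := by
  rcases ht.eq_or_lt with h0 | hpos
  · subst h0; simp
  · obtain ⟨c, hc, hce⟩ := exists_hasDerivAt_eq_slope f f1 hpos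
      (fun u _ => (hf u).continuousAt.continuousWithinAt) (fun u _ => hf u)
    have h1 := hA c hc.1.le hc.2.le
    rw [hce, sub_zero, div_le_iff₀ hpos] at h1
    exact h1

/-- Second-order Taylor upper bound. -/
lemma taylor_up {f f1 f2 : ℝ → ℝ} {A : ℝ} (hf : ∀ u, HasDerivAt f (f1 u) u)
    (hf1 : ∀ u, HasDerivAt f1 (f2 u) u) (hA : ∀ u, 0 ≤ u → u ≤ 1 → f2 u ≤ A) :
    f 1 - f 0 ≤ f1 0 + A / 2 := by
  have hd : ∀ u, HasDerivAt (fun u => f u - f1 0 * u - A / 2 * u ^ 2)
      (f1 u - f1 0 - A * u) u := by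
    intro u
    have h1 : HasDerivAt (fun u : ℝ => f1 0 * u) (f1 0) u := by
      simpa using (hasDerivAt_id u).const_mul (f1 0)
    have h2 : HasDerivAt (fun u : ℝ => A / 2 * u ^ 2) (A * u) u := by
      have := (hasDerivAt_pow 2 u).const_mul (A / 2)
      refine this.congr_deriv ?_
      simp; ring
    exact ((hf u).sub h1).sub h2
  have h := mv_le (A := 0) (t := 1) hd zero_le_one (fun u h0 h1 => by
    have := mv_le (A := A) hf1 h0 (fun v hv0 hv => hA v hv0 (hv.trans h1))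
    linarith)
  simp only [mul_one, one_pow, mul_zero, ne_eq, OfNat.ofNat_ne_zero, not_false_eq_true,
    zero_pow, sub_zero] at h
  linarith

/-- Second-order Taylor lower bound at `0`. -/
lemma taylor_lo {f f1 f2 : ℝ → ℝ} {a : ℝ} (hf : ∀ u, HasDerivAt f (f1 u) u)
    (hf1 : ∀ u, HasDerivAt f1 (f2 u) u) (ha : ∀ u, 0 ≤ u → u ≤ 1 → a ≤ f2 u) :
    f1 0 + a / 2 ≤ f 1 - f 0 := by
  have := taylor_up (f := fun u => -f u) (f1 := fun u => -f1 u) (f2 := fun u => -f2 u)
    (A := -a) (fun u => (hf u).neg) (fun u => (hf1 u).neg) (fun u h0 h1 => by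
      have := ha u h0 h1
      linarith)
  linarith

/-- Second-order Taylor lower bound at `1`. -/
lemma taylor_back {f f1 f2 : ℝ → ℝ} {a : ℝ} (hf : ∀ u, HasDerivAt f (f1 u) u)
    (hf1 : ∀ u, HasDerivAt f1 (f2 u) u) (ha : ∀ u, 0 ≤ u → u ≤ 1 → a ≤ f2 u) :
    -f1 1 + a / 2 ≤ f 0 - f 1 := by
  have hs : ∀ u : ℝ, HasDerivAt (fun u : ℝ => 1 - u) (-1) u := fun u => by
    simpa using (hasDerivAt_id u).const_sub 1
  have := taylor_lo (f := fun u => f (1 - u)) (f1 := fun u => -f1 (1 - u))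
    (f2 := fun u => f2 (1 - u)) (a := a)
    (fun u => ((hf (1 - u)).comp u (hs u)).congr_deriv (by ring))
    (fun u => (((hf1 (1 - u)).comp u (hs u)).neg).congr_deriv (by ring))
    (fun u h0 h1 => ha _ (by linarith) (by linarith))
  simpa using this

end calculus

variable {Ω : Type*} [Fintype Ω]

/-- Partition function of the tilt. -/
noncomputable def zf (ω g : Ω → ℝ) (t : ℝ) : ℝ := ∑ x, ω x * Real.exp (t * g x)

/-- Normalised tilted weight. -/
noncomputable def pt (ω g : Ω → ℝ) (t : ℝ) (x : Ω) : ℝ := ω x * Real.exp (t * g x) / zf ω g t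

/-- Mean under the tilted weight. -/
noncomputable def ev (ω g : Ω → ℝ) (t : ℝ) (F : Ω → ℝ) : ℝ := ∑ x, pt ω g t x * F x

variable {ω g : Ω → ℝ}

lemma ev_eq (t : ℝ) (F : Ω → ℝ) :
    ev ω g t F = zf (fun x => ω x * F x) g t / zf ω g t := by
  unfold ev pt
  rw [zf, zf, Finset.sum_div]
  exact Finset.sum_congr rfl fun x _ => by ring

lemma zf_deriv (ω g : Ω → ℝ) (t : ℝ) :
    HasDerivAt (zf ω g) (zf (fun x => ω x * g x) g t) t := by
  unfold zf
  refine HasDerivAt.fun_sum fun x _ => ?_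
  have h1 : HasDerivAt (fun t : ℝ => t * g x) (g x) t := by
    simpa using (hasDerivAt_id t).mul_const (g x)
  exact ((h1.exp).const_mul (ω x)).congr_deriv (by ring)

lemma log_zf_deriv (t : ℝ) (hz : 0 < zf ω g t) :
    HasDerivAt (fun t => Real.log (zf ω g t)) (ev ω g t g) t := by
  rw [ev_eq]
  exact (zf_deriv ω g t).log hz.ne'

lemma ev_deriv (t : ℝ) (hz : 0 < zf ω g t) (F : Ω → ℝ) :
    HasDerivAt (fun t => ev ω g t F)
      (ev ω g t (fun x => F x * g x) - ev ω g t F * ev ω g t g) t := by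
  have h := (zf_deriv (fun x => ω x * F x) g t).div (zf_deriv ω g t) hz.ne'
  have e1 : (fun t => ev ω g t F) = fun t => zf (fun x => ω x * F x) g t / zf ω g t :=
    funext fun t => ev_eq t F
  rw [e1]
  refine h.congr_deriv ?_
  rw [ev_eq, ev_eq, ev_eq]
  have : (fun x => ω x * (F x * g x)) = fun x => ω x * F x * g x := funext fun x => by ring
  rw [this]
  field_simp

lemma zf_pos (hω : ∀ x, 0 ≤ ω x) (t s : ℝ) (hz : 0 < zf ω g s) : 0 < zf ω g t := by
  unfold zf at *
  obtain ⟨x, -, hx⟩ : ∃ x ∈ (Finset.univ : Finset Ω), 0 < ω x * Real.exp (s * g x) := by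
    by_contra hc
    push Not at hc
    exact absurd hz (not_lt.2 (Finset.sum_nonpos hc))
  have hx' : 0 < ω x := by
    by_contra hc
    have : ω x = 0 := le_antisymm (not_lt.1 hc) (hω x)
    simp [this] at hx
  exact Finset.sum_pos' (fun y _ => mul_nonneg (hω y) (Real.exp_pos _).le)
    ⟨x, Finset.mem_univ x, mul_pos hx' (Real.exp_pos _)⟩

lemma pt_nonneg (hω : ∀ x, 0 ≤ ω x) (t : ℝ) (x : Ω) : 0 ≤ pt ω g t x :=
  div_nonneg (mul_nonneg (hω x) (Real.exp_pos _).le)
    (Finset.sum_nonneg fun y _ => mul_nonneg (hω y) (Real.exp_pos _).le)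

lemma ev_const (t : ℝ) (hz : 0 < zf ω g t) (c : ℝ) : ev ω g t (fun _ => c) = c := by
  rw [ev_eq]
  have : zf (fun x => ω x * c) g t = c * zf ω g t := by
    unfold zf
    rw [Finset.mul_sum]
    exact Finset.sum_congr rfl fun x _ => by ring
  rw [this]
  field_simp

lemma ev_mono (hω : ∀ x, 0 ≤ ω x) (t : ℝ) {F G : Ω → ℝ} (h : ∀ x, F x ≤ G x) :
    ev ω g t F ≤ ev ω g t G :=
  Finset.sum_le_sum fun x _ => mul_le_mul_of_nonneg_left (h x) (pt_nonneg hω t x)

lemma ev_nonneg (hω : ∀ x, 0 ≤ ω x) (t : ℝ) {F : Ω → ℝ} (h : ∀ x, 0 ≤ F x) :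
    0 ≤ ev ω g t F :=
  Finset.sum_nonneg fun x _ => mul_nonneg (pt_nonneg hω t x) (h x)

lemma ev_lin2 (t a b : ℝ) (F G : Ω → ℝ) :
    ev ω g t (fun x => a * F x + b * G x) = a * ev ω g t F + b * ev ω g t G := by
  unfold ev
  rw [Finset.mul_sum, Finset.mul_sum, ← Finset.sum_add_distrib]
  exact Finset.sum_congr rfl fun x _ => by ring

lemma ev_lin3 (t a b c : ℝ) (F G H : Ω → ℝ) :
    ev ω g t (fun x => a * F x + b * G x + c * H x)
      = a * ev ω g t F + b * ev ω g t G + c * ev ω g t H := by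
  unfold ev
  rw [Finset.mul_sum, Finset.mul_sum, Finset.mul_sum, ← Finset.sum_add_distrib,
    ← Finset.sum_add_distrib]
  exact Finset.sum_congr rfl fun x _ => by ring

lemma ev_congr (t : ℝ) {F G : Ω → ℝ} (h : ∀ x, F x = G x) : ev ω g t F = ev ω g t G := by
  rw [funext h]

/-- Cauchy-Schwarz for tilted means. -/
lemma ev_cs (hω : ∀ x, 0 ≤ ω x) (t : ℝ) (F G : Ω → ℝ) :
    ev ω g t (fun x => F x * G x) ^ 2
      ≤ ev ω g t (fun x => F x ^ 2) * ev ω g t (fun x => G x ^ 2) := by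
  unfold ev
  refine Finset.sum_sq_le_sum_mul_sum_of_sq_le_mul _
    (fun x _ => mul_nonneg (pt_nonneg hω t x) (sq_nonneg _))
    (fun x _ => mul_nonneg (pt_nonneg hω t x) (sq_nonneg _)) (fun x _ => le_of_eq (by ring))

/-- The variance is the mean square deviation from the mean, and is at most the mean square
deviation from any constant. -/
lemma ev_var (t : ℝ) (hz : 0 < zf ω g t) (F : Ω → ℝ) (c : ℝ) :
    ev ω g t (fun x => F x * F x) - ev ω g t F * ev ω g t F
      = ev ω g t (fun x => (F x - c) ^ 2) - (ev ω g t F - c) ^ 2 := by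
  have h := ev_lin3 (ω := ω) (g := g) t 1 (-2 * c) (c ^ 2) (fun x => F x * F x) F (fun _ => 1)
  rw [ev_const t hz] at h
  have e : ev ω g t (fun x => (F x - c) ^ 2)
      = ev ω g t (fun x => 1 * (F x * F x) + -2 * c * F x + c ^ 2 * 1) :=
    ev_congr t fun x => by ring
  rw [e, h]; ring

/-- Covariance with a centred second factor. -/
lemma ev_cov (t : ℝ) (F G : Ω → ℝ) :
    ev ω g t (fun x => F x * G x) - ev ω g t F * ev ω g t G
      = ev ω g t (fun x => F x * (G x - ev ω g t G)) := by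
  have h := ev_lin2 (ω := ω) (g := g) t 1 (-ev ω g t G) (fun x => F x * G x) F
  have e : ev ω g t (fun x => F x * (G x - ev ω g t G))
      = ev ω g t (fun x => 1 * (F x * G x) + -ev ω g t G * F x) :=
    ev_congr t fun x => by ring
  rw [e, h]; ring

/-- Means for the reweighted family. -/
lemma ev_rew (t : ℝ) (hz : 0 < zf ω g t) (w F : Ω → ℝ) :
    ev (fun x => ω x * w x) g t F = ev ω g t (fun x => w x * F x) / ev ω g t w := by
  rw [ev_eq, ev_eq, ev_eq]
  have : (fun x => ω x * (w x * F x)) = fun x => ω x * w x * F x := funext fun x => by ring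
  rw [this]
  by_cases h : zf (fun x => ω x * w x) g t = 0
  · simp [h]
  · field_simp

lemma zf_rew (t : ℝ) (hz : 0 < zf ω g t) (w : Ω → ℝ) :
    zf (fun x => ω x * w x) g t = ev ω g t w * zf ω g t := by
  rw [ev_eq]; field_simp

/-- Change of tilt from `0` to `1`. -/
lemma ev_one (hz0 : 0 < zf ω g 0) (F : Ω → ℝ) :
    ev ω g 1 F = ev ω g 0 (fun x => F x * Real.exp (g x)) * (zf ω g 0 / zf ω g 1) := by
  rw [ev_eq, ev_eq]
  have : zf (fun x => ω x * (F x * Real.exp (g x))) g 0 = zf (fun x => ω x * F x) g 1 := by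
    unfold zf
    exact Finset.sum_congr rfl fun x _ => by simp; ring
  rw [this]
  field_simp

end Pool.Agent.MP_9e8696_an.H91
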